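import Pool.Agent.Helper42.QC.Defs

namespace Pool.Agent.Helper42.QC

open Pool.Agent.Helper42.QD

variable {K D : Type} [Field K] [DivisionRing D]

theorem co2_rep (c : CD K D) (y : D) (a : ℕ → K)
    (h : y = ∑ i ∈ Finset.range c.d, c.emb (a i) * c.T ^ i) (i : ℕ) (hi : i < c.d) :
    c.co y i = a i := by
  have h1 := c.co_uniq y (fun i => if i < c.d then a i else 0)
    (fun i hi => by simp [not_lt.mpr hi]) (by
      rw [h]
      refine Finset.sum_congr rfl fun i hi => ?_
      rw [Finset.mem_range] at hi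
      simp [hi])
  rw [← h1]
  simp [hi]

theorem co2_add (c : CD K D) (y z : D) (i : ℕ) : c.co (y + z) i = c.co y i + c.co z i := by
  have h1 := c.co_uniq (y + z) (fun i => c.co y i + c.co z i)
    (fun i hi => by simp [c.co_zero y i hi, c.co_zero z i hi]) (by
      conv_lhs => rw [c.co_spec y, c.co_spec z]
      rw [← Finset.sum_add_distrib]
      refine Finset.sum_congr rfl fun i _ => ?_
      rw [map_add, add_mul])
  rw [← h1]

theorem co2_zero (c : CD K D) (i : ℕ) : c.co 0 i = 0 := by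
  have h := co2_add c 0 0 i
  rw [add_zero] at h
  exact left_eq_add.mp h

theorem co2_sum (c : CD K D) (s : Finset ℕ) (f : ℕ → D) (i : ℕ) :
    c.co (∑ j ∈ s, f j) i = ∑ j ∈ s, c.co (f j) i := by
  classical
  induction s using Finset.induction_on with
  | empty => simp [co2_zero]
  | insert a s ha ih => rw [Finset.sum_insert ha, Finset.sum_insert ha, co2_add, ih]

theorem co2_emb (c : CD K D) (a : K) (y : D) (i : ℕ) : c.co (c.emb a * y) i = a * c.co y i := by
  have h1 := c.co_uniq (c.emb a * y) (fun i => a * c.co y i)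
    (fun i hi => by simp [c.co_zero y i hi]) (by
      conv_lhs => rw [c.co_spec y]
      rw [Finset.mul_sum]
      refine Finset.sum_congr rfl fun i _ => ?_
      rw [map_mul, mul_assoc])
  rw [← h1]

/-- Coefficients of `T * y`. -/
theorem co2_T (c : CD K D) (y : D) :
    (∀ i, i + 1 < c.d → c.co (c.T * y) (i + 1) = c.sig (c.co y i)) ∧
    c.co (c.T * y) 0 = c.sig (c.co y (c.d - 1)) * c.pi := by
  have hd := c.d2
  obtain ⟨e, he⟩ : ∃ e, c.d = e + 1 := ⟨c.d - 1, by omega⟩
  have h1 : c.T * y = ∑ i ∈ Finset.range c.d,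
      c.emb (if i = 0 then c.sig (c.co y (c.d - 1)) * c.pi else c.sig (c.co y (i - 1)))
        * c.T ^ i := by
    conv_lhs => rw [c.co_spec y]
    rw [Finset.mul_sum]
    have h2 : ∀ i, c.T * (c.emb (c.co y i) * c.T ^ i) = c.emb (c.sig (c.co y i)) * c.T ^ (i + 1) := by
      intro i
      rw [← mul_assoc, c.Tmul, mul_assoc, ← pow_succ']
    simp only [h2]
    have h3 := Finset.sum_range_succ (fun i => c.emb (c.sig (c.co y i)) * c.T ^ (i + 1)) e
    have h4 := Finset.sum_range_succ' (fun i => c.emb (if i = 0 then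
      c.sig (c.co y (c.d - 1)) * c.pi else c.sig (c.co y (i - 1))) * c.T ^ i) e
    rw [← he] at h3 h4
    rw [h3, h4]
    have h5 : c.d - 1 = e := by omega
    simp only [h5, if_true, pow_zero, mul_one, Nat.succ_ne_zero, if_false, Nat.add_sub_cancel]
    rw [c.Tpow, ← map_mul]
  refine ⟨fun i hi => ?_, ?_⟩
  · rw [co2_rep c _ _ h1 (i + 1) hi]
    simp
  · rw [co2_rep c _ _ h1 0 (by omega)]
    simp

theorem co2_O_T (c : CD K D) (y : D) (hy : ∀ i, c.co y i ∈ c.A) :
    ∀ i, c.co (c.T * y) i ∈ c.A := by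
  intro i
  obtain ⟨h1, h2⟩ := co2_T c y
  rcases Nat.eq_zero_or_pos i with h | h
  · subst h
    rw [h2]
    exact c.A.mul_mem (c.sigA _ (hy _)) c.piA
  · obtain ⟨j, rfl⟩ : ∃ j, i = j + 1 := ⟨i - 1, by omega⟩
    rcases lt_or_ge (j + 1) c.d with h3 | h3
    · rw [h1 j h3]
      exact c.sigA _ (hy _)
    · rw [c.co_zero _ _ h3]
      exact c.A.zero_mem

theorem co2_O_Tpow (c : CD K D) (n : ℕ) (y : D) (hy : ∀ i, c.co y i ∈ c.A) :
    ∀ i, c.co (c.T ^ n * y) i ∈ c.A := by
  induction n with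
  | zero => simpa using hy
  | succ n ih =>
    rw [pow_succ', mul_assoc]
    exact co2_O_T c _ ih

theorem st_CO2 : ST_CO2 := by
  intro K D _ _ c y z hy hz
  have h1 : y * z = ∑ i ∈ Finset.range c.d, c.emb (c.co y i) * (c.T ^ i * z) := by
    conv_lhs => rw [c.co_spec y]
    rw [Finset.sum_mul]
    exact Finset.sum_congr rfl fun i _ => by rw [mul_assoc]
  have h2 : ∀ n, c.co (y * z) n = ∑ i ∈ Finset.range c.d, c.co y i * c.co (c.T ^ i * z) n := by
    intro n
    rw [h1, co2_sum]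
    exact Finset.sum_congr rfl fun i _ => co2_emb c _ _ _
  refine ⟨fun i => ?_, ?_⟩
  · rw [h2]
    exact c.A.sum_mem fun j _ => c.A.mul_mem (hy j) (co2_O_Tpow c j z hz i)
  · have hd := c.d2
    obtain ⟨e, he⟩ : ∃ e, c.d = e + 1 := ⟨c.d - 1, by omega⟩
    have h3 := Finset.sum_range_succ' (fun i => c.co y i * c.co (c.T ^ i * z) 0) e
    rw [← he] at h3
    rw [h2, h3, pow_zero, one_mul, add_sub_cancel_right, Finset.sum_div]
    refine c.A.sum_mem fun j _ => ?_
    rw [pow_succ', mul_assoc, (co2_T c _).2, ← mul_assoc, mul_div_assoc, div_self c.pine, mul_one]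
    exact c.A.mul_mem (hy _) (c.sigA _ (co2_O_Tpow c j z hz _))

end Pool.Agent.Helper42.QC
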