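import Pool.Agent.Helper42.QC.Defs

namespace Pool.Agent.Helper42.QC

open Pool.Agent.Helper42.QD

theorem st_FIL (hC : ST_CO1) : ST_FIL := by
  intro K D _ _ c m y
  obtain ⟨-, -, h3, -⟩ := hC K D c
  have h1 : c.T ^ (-((c.d : ℤ) * m)) = c.emb ((c.pi ^ m)⁻¹) := by
    rw [zpow_neg, zpow_mul, zpow_natCast, c.Tpow, ← map_zpow₀, ← map_inv₀]
  rw [h1]
  refine forall_congr' fun i => ?_
  rw [h3, mul_comm, ← div_eq_mul_inv]

end Pool.Agent.Helper42.QC
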