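import Pool.Agent.Helper42.QC.Defs

namespace Pool.Agent.Helper42.QC

open Pool.Agent.Helper42.QD

variable {K D : Type} [Field K] [DivisionRing D]

theorem psi_iter_mul (c : CD K D) (a b : K) (n : ℕ) :
    c.sig^[n] (a * b) = c.sig^[n] a * c.sig^[n] b := by
  induction n generalizing a b with
  | zero => rfl
  | succ n ih => rw [Function.iterate_succ_apply, map_mul, ih, ← Function.iterate_succ_apply,
      ← Function.iterate_succ_apply]

theorem psi_iter_fix (c : CD K D) (a : K) (h : c.sig a = a) (n : ℕ) : c.sig^[n] a = a := by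
  induction n with
  | zero => rfl
  | succ n ih => rw [Function.iterate_succ_apply, h, ih]

theorem psi_iter_A (c : CD K D) (a : K) (h : a ∈ c.A) (n : ℕ) : c.sig^[n] a ∈ c.A := by
  induction n with
  | zero => exact h
  | succ n ih =>
    rw [Function.iterate_succ_apply']
    exact c.sigA _ ih

theorem psi_sig_zpow (c : CD K D) (j : ℤ) : c.sig (c.pi ^ j) = c.pi ^ j := by
  rw [map_zpow₀, c.sigpi]

/-- The reduced trace of `emb (pi ^ j) * x`. -/
theorem psi_trd (hC : ST_CO1) (c : CD K D) (j : ℤ) (x : D) :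
    (c.trd (c.emb (c.pi ^ j) * x) : K) =
      c.pi ^ j * ∑ l ∈ Finset.range c.d, c.sig^[l] (c.co x 0) := by
  obtain ⟨-, -, h3, -⟩ := hC K D c
  change ∑ l ∈ Finset.range c.d, c.sig^[l] (c.co (c.emb (c.pi ^ j) * x) 0) = _
  rw [h3, Finset.mul_sum]
  refine Finset.sum_congr rfl fun l _ => ?_
  rw [psi_iter_mul, psi_iter_fix c _ (psi_sig_zpow c j)]

theorem psi_T_ne (c : CD K D) : c.T ≠ 0 := by
  intro h
  have h1 := c.Tpow
  have h2 := c.d2
  rw [h, zero_pow (by omega)] at h1
  exact c.pine ((map_eq_zero c.emb).mp h1.symm)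

theorem st_PSI (hC : ST_CO1) (hT : ST_TR1) : ST_PSI := by
  intro K D _ _ c φ hφ hn
  obtain ⟨n, hn⟩ := hn
  have hCC := hC K D c
  obtain ⟨-, -, h3, -, h5, -, -, -, h9⟩ := hCC
  obtain ⟨a0, ha0, ha1⟩ := hT K D c
  have hd := c.d2
  let L : ℤ → Prop := fun j => ∀ x : D, (∀ i, c.co x i ∈ c.A) →
    φ (c.trd (c.emb (c.pi ^ j) * x)) = 1
  -- L holds for large j
  have hL1 : ∀ j : ℤ, (n : ℤ) ≤ j → L j := by
    intro j hj x hx
    apply hn
    rw [psi_trd hC, mul_comm, mul_div_assoc]
    refine c.A.mul_mem (c.A.sum_mem fun l _ => psi_iter_A c _ (hx 0) l) ?_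
    obtain ⟨m, rfl⟩ : ∃ m : ℕ, j = n + m := ⟨(j - n).toNat, by omega⟩
    rw [zpow_add₀ c.pine, zpow_natCast, zpow_natCast, mul_comm, mul_div_assoc,
      div_self (pow_ne_zero _ c.pine), mul_one]
    exact c.A.pow_mem c.piA m
  -- L fails for some j
  have hL2 : ∃ j, ¬ L j := by
    have h1 : ∃ x0 : c.F, φ x0 ≠ 1 := by
      by_contra h
      push Not at h
      apply hφ
      ext x
      rw [h x]
      rfl
    obtain ⟨x0, hx0⟩ := h1
    have hne : (x0 : K) ≠ 0 := by
      intro h
      apply hx0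
      have : x0 = 0 := Subtype.ext h
      rw [this]
      exact AddChar.map_zero_eq_one φ
    obtain ⟨m, u, hu, -, hux⟩ := c.unif x0 hne
    refine ⟨m, fun hL => hx0 ?_⟩
    have h6 : ∀ i, c.co (c.emb (u * a0)) i = if i = 0 then u * a0 else 0 := by
      intro i
      have := h5 (u * a0) 0 i (by omega)
      rwa [pow_zero, mul_one] at this
    have h7 := hL (c.emb (u * a0)) (fun i => by
      rw [h6]
      split_ifs
      · exact c.A.mul_mem hu ha0
      · exact c.A.zero_mem)
    have h8 : c.trd (c.emb (c.pi ^ m) * c.emb (u * a0)) = x0 := by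
      apply Subtype.ext
      rw [psi_trd hC, h6, if_pos rfl, Finset.mul_sum]
      have h10 : ∀ l, c.pi ^ m * c.sig^[l] (u * a0) = (x0 : K) * c.sig^[l] a0 := by
        intro l
        rw [← psi_iter_fix c (c.pi ^ m) (psi_sig_zpow c m) l, ← psi_iter_mul, ← mul_assoc,
          mul_comm (c.pi ^ m) u, ← hux, psi_iter_mul, psi_iter_fix c _ x0.2 l]
      rw [Finset.sum_congr rfl fun l _ => h10 l, ← Finset.mul_sum, ha1, mul_one]
    rwa [h8] at h7
  have hL3 : ∀ j, ¬ L j → j ≤ n := by
    intro j hj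
    by_contra h
    exact hj (hL1 j (by omega))
  obtain ⟨e, he, hmax⟩ := Int.exists_greatest_of_bdd (P := fun j => ¬ L j) ⟨n, hL3⟩ hL2
  have hL4 : L (e + 1) := by
    by_contra h
    have := hmax _ h
    omega
  refine ⟨e, ?_, ?_⟩
  · intro x hx
    have hx1 : c.co x 0 / c.pi ∈ c.A := by
      have h10 : x = c.T * (c.T ^ (-1 : ℤ) * x) := by
        rw [← mul_assoc, zpow_neg_one, mul_inv_cancel₀ (psi_T_ne c), one_mul]
      rw [h10, h9, mul_div_assoc, div_self c.pine, mul_one]
      exact c.sigA _ (hx _)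
    have h6 : ∀ i, c.co (c.emb (c.co x 0 / c.pi)) i = if i = 0 then c.co x 0 / c.pi else 0 := by
      intro i
      have := h5 (c.co x 0 / c.pi) 0 i (by omega)
      rwa [pow_zero, mul_one] at this
    have h7 := hL4 (c.emb (c.co x 0 / c.pi)) (fun i => by
      rw [h6]
      split_ifs
      · exact hx1
      · exact c.A.zero_mem)
    rw [← h7]
    congr 1
    apply Subtype.ext
    rw [psi_trd hC, psi_trd hC, h6, if_pos rfl, Finset.mul_sum, Finset.mul_sum]
    refine Finset.sum_congr rfl fun l _ => ?_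
    rw [zpow_add_one₀ c.pine, mul_assoc]
    congr 1
    have h11 := psi_iter_mul c c.pi (c.co x 0 / c.pi) l
    rw [psi_iter_fix c c.pi c.sigpi l, mul_div_cancel₀ _ c.pine] at h11
    exact h11
  · by_contra h
    push Not at h
    exact he h

end Pool.Agent.Helper42.QC
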