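import Pool.Agent.Helper42.QC.Defs

namespace Pool.Agent.Helper42.QC

open Pool.Agent.Helper42.QD

theorem tr1_iter_mul {K : Type} [Field K] (f : K ≃+* K) (a b : K) (n : ℕ) :
    f^[n] (a * b) = f^[n] a * f^[n] b := by
  induction n generalizing a b with
  | zero => rfl
  | succ n ih => rw [Function.iterate_succ_apply, map_mul, ih, ← Function.iterate_succ_apply,
      ← Function.iterate_succ_apply]

/-- Independence of the powers of an automorphism of finite order. -/
theorem tr1_indep {k : Type} [Field k] (s : k ≃+* k) (hd : 0 < orderOf s) :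
    ∃ a : k, ∑ j ∈ Finset.range (orderOf s), (s ^ j) a ≠ 0 := by
  by_contra h
  push Not at h
  have h1 := linearIndependent_monoidHom k k
  let g : Fin (orderOf s) → (k →* k) := fun j => ((s ^ (j : ℕ) : k ≃+* k) : k →* k)
  have hg : Function.Injective g := by
    intro i j hij
    have h2 : s ^ (i : ℕ) = s ^ (j : ℕ) := by
      ext x
      exact DFunLike.congr_fun hij x
    exact Fin.ext (pow_injOn_Iio_orderOf i.2 j.2 h2)
  have h2 := h1.comp g hg
  rw [Fintype.linearIndependent_iff] at h2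
  have h3 := h2 (fun _ => 1) (by
    ext x
    have h4 := h x
    rw [Finset.sum_range] at h4
    simp only [Function.comp, one_smul, Finset.sum_apply, Pi.zero_apply]
    exact h4) ⟨0, hd⟩
  exact one_ne_zero h3

theorem st_TR1 (hR : ST_RES) : ST_TR1 := by
  intro K D _ _ c
  obtain ⟨k, _, r, s, _, hadd, hmul, hone, hzero, hsurj, hsig, hord⟩ := hR K D c
  have hd := c.d2
  obtain ⟨a, ha⟩ := tr1_indep s (by omega)
  obtain ⟨x, hxA, hx⟩ := hsurj a
  have hit : ∀ j, c.sig^[j] x ∈ c.A ∧ r (c.sig^[j] x) = (s ^ j) a := by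
    intro j
    induction j with
    | zero => exact ⟨hxA, by simpa using hx⟩
    | succ j ih =>
      rw [Function.iterate_succ_apply']
      refine ⟨c.sigA _ ih.1, ?_⟩
      rw [hsig _ ih.1, ih.2, pow_succ']
      rfl
  have h0 : r 0 = 0 := (hzero 0 c.A.zero_mem).mpr (by
    rw [zero_div]
    exact c.A.zero_mem)
  have hsum : ∀ n, r (∑ j ∈ Finset.range n, c.sig^[j] x) = ∑ j ∈ Finset.range n, (s ^ j) a := by
    intro n
    induction n with
    | zero => simpa using h0
    | succ n ih =>
      rw [Finset.sum_range_succ, Finset.sum_range_succ,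
        hadd _ (c.A.sum_mem fun j _ => (hit j).1) _ (hit n).1, ih, (hit n).2]
  set t := ∑ j ∈ Finset.range c.d, c.sig^[j] x with ht
  have htA : t ∈ c.A := c.A.sum_mem fun j _ => (hit j).1
  have htr : r t ≠ 0 := by
    rw [ht, hsum, ← hord]
    exact ha
  have hts : c.sig t = t := c.orb x
  have ht0 : t ≠ 0 := fun h => htr (by rw [h, h0])
  have htpi : t / c.pi ∉ c.A := fun h => htr ((hzero t htA).mpr h)
  have htinv : t⁻¹ ∈ c.A := by
    obtain ⟨n, u, hu, hu', hun⟩ := c.unif t ht0
    have hu0 : u ≠ 0 := by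
      rintro rfl
      rw [zero_mul] at hun
      exact ht0 hun
    rcases lt_trichotomy n 0 with h | h | h
    · exfalso
      apply c.pinv
      obtain ⟨m, rfl⟩ : ∃ m : ℕ, n = -1 - m := ⟨(-1 - n).toNat, by omega⟩
      have h1 : c.pi⁻¹ = u⁻¹ * t * c.pi ^ m := by
        rw [hun, ← mul_assoc, inv_mul_cancel₀ hu0, one_mul, ← zpow_natCast, ← zpow_add₀ c.pine,
          ← zpow_neg_one]
        congr 1
        omega
      rw [h1]
      exact c.A.mul_mem (c.A.mul_mem hu' htA) (c.A.pow_mem c.piA m)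
    · subst h
      rw [zpow_zero, mul_one] at hun
      rw [hun]
      exact hu'
    · exfalso
      apply htpi
      obtain ⟨m, rfl⟩ : ∃ m : ℕ, n = m + 1 := ⟨(n - 1).toNat, by omega⟩
      rw [hun, zpow_add_one₀ c.pine, ← mul_assoc, mul_div_assoc, div_self c.pine, mul_one,
        zpow_natCast]
      exact c.A.mul_mem hu (c.A.pow_mem c.piA m)
  refine ⟨x * t⁻¹, c.A.mul_mem hxA htinv, ?_⟩
  have hfix : ∀ j, c.sig^[j] t⁻¹ = t⁻¹ := by
    intro j
    induction j with
    | zero => rfl
    | succ j ih => rw [Function.iterate_succ_apply', ih, map_inv₀, hts]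
  have h1 : ∀ j, c.sig^[j] (x * t⁻¹) = c.sig^[j] x * t⁻¹ := fun j => by
    rw [tr1_iter_mul, hfix]
  rw [Finset.sum_congr rfl fun j _ => h1 j, ← Finset.sum_mul, ← ht, mul_inv_cancel₀ ht0]

end Pool.Agent.Helper42.QC
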